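import Mathlib

/-!
# Products of `k` consecutive values of the Liouville function take both signs in every interval of
# length about `3 √(k x)`

From Mathlib: `ArithmeticFunction.cardFactors n`: the number of the prime factors of `n` with multiplicity.
-/

set_option autoImplicit false

namespace Pool.Agent.Results.MP_a14ce1_nt.EveryShortIntervalH15

open Finset

/-- The product `λ(n) λ(n + 1) ... λ(n + k - 1)` of the values of the Liouville function at `k` consecutive
integers. -/
def P (k n : ℕ) : ℤ := ∏ i ∈ range k, (-1) ^ ArithmeticFunction.cardFactors (n + i)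

/-- The sum of the products over `1 ≤ n ≤ x`. -/
def S (k x : ℕ) : ℤ := ∑ n ∈ Icc 1 x, P k n

private def lam (n : ℕ) : ℤ := (-1) ^ ArithmeticFunction.cardFactors n

private lemma lam_sq (n : ℕ) : lam n * lam n = 1 := by
  unfold lam
  rw [← mul_pow]
  norm_num

private lemma lam_ne (n : ℕ) : lam n ≠ 0 := by
  intro h
  have := lam_sq n
  rw [h] at this
  norm_num at this

private lemma lam_mul {a b : ℕ} (ha : a ≠ 0) (hb : b ≠ 0) : lam (a * b) = lam a * lam b := by
  unfold lam
  rw [ArithmeticFunction.cardFactors_mul ha hb, pow_add]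

private lemma lam_two : lam 2 = -1 := by
  unfold lam
  rw [ArithmeticFunction.cardFactors_apply_prime Nat.prime_two]
  norm_num

/-- Descent: the period `q` on an interval gives the period `q` at `w` if `X ≤ u w` and `u (w + q) ≤ Z + q`. -/
private lemma descent {q X Z : ℕ} (hper : ∀ n, X ≤ n → n ≤ Z → lam (n + q) = lam n) {u w : ℕ} (hu : 1 ≤ u)
    (hw : 1 ≤ w) (h1 : X ≤ u * w) (h2 : u * (w + q) ≤ Z + q) : lam (w + q) = lam w := by
  have key : ∀ j, j ≤ u → lam (u * w + j * q) = lam (u * w) := by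
    intro j
    induction j with
    | zero => intro _; simp
    | succ j ih =>
      intro hj
      have h3 : (j + 1) * q ≤ u * q := Nat.mul_le_mul_right q hj
      have h4 : u * w + j * q ≤ Z := by
        have e1 : u * (w + q) = u * w + u * q := by ring
        have e2 : (j + 1) * q = j * q + q := by ring
        omega
      have h5 := hper (u * w + j * q) (by omega) h4
      rw [show u * w + (j + 1) * q = u * w + j * q + q by ring, h5]
      exact ih (by omega)
  have h6 := key u le_rfl
  rw [show u * w + u * q = u * (w + q) by ring, lam_mul (by omega) (by omega), lam_mul (by omega) (by omega)] at h6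
  exact mul_left_cancel₀ (lam_ne u) h6

private lemma exists_u {q X D w : ℕ} (hX : 1 ≤ X) (hw : 1 ≤ w) (h : w * w + q * X ≤ w * D) :
    ∃ u, 1 ≤ u ∧ X ≤ u * w ∧ u * (w + q) ≤ (X + D) + q := by
  refine ⟨(X + w - 1) / w, ?_, ?_, ?_⟩
  · rw [Nat.one_le_div_iff (by omega)]
    omega
  · have h1 := Nat.lt_div_mul_add (a := X + w - 1) (b := w) (by omega)
    omega
  · have h1 : (X + w - 1) / w * w ≤ X + w - 1 := Nat.div_mul_le_self _ _
    set u := (X + w - 1) / w with hu
    by_contra hcon
    push Not at hcon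
    have h2 : w * (X + D + q + 1) ≤ w * (u * (w + q)) := Nat.mul_le_mul_left w hcon
    have h3 : w * (u * (w + q)) = (u * w) * (w + q) := by ring
    have h4 : (u * w) * (w + q) ≤ (X + w - 1) * (w + q) := Nat.mul_le_mul_right _ h1
    have h5 : (X + w - 1) * (w + q) + (w + q) = (X + w) * (w + q) := by
      rw [← Nat.succ_mul]
      congr 1
      omega
    have h6 : (X + w) * (w + q) = w * X + w * w + q * X + w * q := by ring
    have h7 : w * (X + D + q + 1) = w * X + w * D + w * q + w := by ring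
    omega

/-- The two ends of the range of `w` suffice. -/
private lemma concave {q X D a b w : ℕ} (haw : a ≤ w) (hwb : w ≤ b) (ha : a * a + q * X ≤ a * D)
    (hb : b * b + q * X ≤ b * D) : w * w + q * X ≤ w * D := by
  zify at *
  rcases le_or_gt ((w : ℤ) + a) D with h | h
  · nlinarith [mul_nonneg (sub_nonneg.2 haw) (sub_nonneg.2 h)]
  · nlinarith [mul_nonneg (sub_nonneg.2 hwb) (sub_nonneg.2 (by linarith : (D : ℤ) ≤ w + b))]

private lemma no_period_aux {q X D m : ℕ} (hq : 1 ≤ q) (hX : 1 ≤ X) (hm : 1 ≤ m)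
    (hper : ∀ n, X ≤ n → n ≤ X + D → lam (n + q) = lam n) (h1 : (q * m) * (q * m) + q * X ≤ (q * m) * D)
    (h2 : (q * (2 * m - 1)) * (q * (2 * m - 1)) + q * X ≤ (q * (2 * m - 1)) * D) : False := by
  have step : ∀ j, m ≤ j → j ≤ 2 * m - 1 → lam (q * (j + 1)) = lam (q * j) := by
    intro j hj1 hj2
    have hw : (q * j) * (q * j) + q * X ≤ (q * j) * D :=
      concave (Nat.mul_le_mul_left q hj1) (Nat.mul_le_mul_left q hj2) h1 h2
    have hqj : 1 ≤ q * j := Nat.mul_pos (by omega) (by omega)
    obtain ⟨u, hu, hu1, hu2⟩ := exists_u hX hqj hw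
    exact descent hper hu hqj hu1 hu2
  have chain : ∀ i, i ≤ m → lam (q * (m + i)) = lam (q * m) := by
    intro i
    induction i with
    | zero => intro _; simp
    | succ i ih =>
      intro hi
      rw [show m + (i + 1) = m + i + 1 by ring, step (m + i) (by omega) (by omega)]
      exact ih (by omega)
  have h3 := chain m le_rfl
  rw [show q * (m + m) = 2 * (q * m) by ring, lam_mul (by norm_num)
    (Nat.pos_iff_ne_zero.1 (Nat.mul_pos (by omega) (by omega))), lam_two] at h3
  have h4 := lam_ne (q * m)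
  omega

/-- `λ` is not `q`-periodic on an interval of length `3 √(q X) + q`. -/
private lemma no_period {q X D : ℕ} (hq : 1 ≤ q) (hX : 1 ≤ X) (hD : 3 * Real.sqrt (q * X) + q ≤ D)
    (hper : ∀ n, X ≤ n → n ≤ X + D → lam (n + q) = lam n) : False := by
  have hq0 : (0 : ℝ) < q := by exact_mod_cast hq
  have hX0 : (0 : ℝ) < X := by exact_mod_cast hX
  set t : ℝ := Real.sqrt (X / q) with ht
  have ht0 : 0 < t := Real.sqrt_pos.2 (by positivity)
  have ht2 : t * t = X / q := Real.mul_self_sqrt (by positivity)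
  have hXt : (X : ℝ) = q * (t * t) := by rw [ht2]; field_simp
  have hs : Real.sqrt (q * X) = q * t := by
    rw [hXt, show (q : ℝ) * (q * (t * t)) = (q * t) * (q * t) by ring, Real.sqrt_mul_self (by positivity)]
  rw [hs] at hD
  have crit : ∀ j : ℕ, (j : ℝ) * j - 3 * j * t + t * t - j ≤ 0 → (q * j) * (q * j) + q * X ≤ (q * j) * D := by
    intro j hj
    have h1 : (((q * j) * (q * j) + q * X : ℕ) : ℝ) ≤ (((q * j) * D : ℕ) : ℝ) := by
      push_cast
      rw [hXt]
      have h2 : (q : ℝ) * j * (3 * (q * t) + q) ≤ (q : ℝ) * j * D := mul_le_mul_of_nonneg_left hD (by positivity)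
      have h3 : (q : ℝ) * q * ((j : ℝ) * j - 3 * j * t + t * t - j) ≤ 0 :=
        mul_nonpos_of_nonneg_of_nonpos (by positivity) hj
      nlinarith
    exact_mod_cast h1
  rcases lt_or_ge t 1 with h | h
  · refine no_period_aux (m := 1) hq hX le_rfl hper (crit 1 ?_) (crit (2 * 1 - 1) ?_)
    · push_cast
      nlinarith
    · norm_num
      nlinarith
  · set m : ℕ := ⌊t⌋₊ with hm
    have hm1 : 1 ≤ m := Nat.le_floor (by exact_mod_cast h)
    have hm2 : (m : ℝ) ≤ t := Nat.floor_le ht0.le
    have hm3 : t < m + 1 := Nat.lt_floor_add_one t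
    have hm1' : (1 : ℝ) ≤ m := by exact_mod_cast hm1
    refine no_period_aux (m := m) hq hX hm1 hper (crit m ?_) (crit (2 * m - 1) ?_)
    · nlinarith [mul_nonneg (sub_nonneg.2 hm2) (sub_nonneg.2 hm3.le)]
    · have h5 : (((2 * m - 1 : ℕ)) : ℝ) = 2 * m - 1 := by
        rw [Nat.cast_sub (by omega)]
        push_cast
        ring
      rw [h5]
      nlinarith [mul_nonneg (sub_nonneg.2 hm2) (sub_nonneg.2 hm3.le), mul_nonneg (sub_nonneg.2 hm1') (sub_nonneg.2 hm2)]

private lemma P_succ (k n : ℕ) : P k (n + 1) * lam n = lam (n + k) * P k n := by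
  unfold P lam
  have h1 := Finset.prod_range_succ (fun i => (-1 : ℤ) ^ ArithmeticFunction.cardFactors (n + i)) k
  have h2 := Finset.prod_range_succ' (fun i => (-1 : ℤ) ^ ArithmeticFunction.cardFactors (n + i)) k
  rw [h1] at h2
  have h3 : ∏ i ∈ range k, (-1 : ℤ) ^ ArithmeticFunction.cardFactors (n + 1 + i) =
      ∏ i ∈ range k, (-1 : ℤ) ^ ArithmeticFunction.cardFactors (n + (i + 1)) := by
    apply prod_congr rfl
    intro i _
    congr 2
    ring
  rw [h3]
  rw [add_zero] at h2
  rw [← h2]
  ring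

private lemma P_sign (k n : ℕ) : P k n = 1 ∨ P k n = -1 := by
  unfold P
  rw [Finset.prod_pow_eq_pow_sum]
  exact neg_one_pow_eq_or ℤ _

private lemma both {k X H : ℕ} (hk : 1 ≤ k) (hX : 1 ≤ X) (hH : 3 * Real.sqrt (k * X) + k + 1 ≤ H) (η : ℤ)
    (hη : η = 1 ∨ η = -1) : ∃ n, X ≤ n ∧ n ≤ X + H ∧ P k n = η := by
  by_contra hcon
  push Not at hcon
  have hH1 : 1 ≤ H := by
    have : (1 : ℝ) ≤ H := by
      have := Real.sqrt_nonneg ((k : ℝ) * X)
      have h2 : (0 : ℝ) ≤ k := Nat.cast_nonneg k
      linarith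
    exact_mod_cast this
  have hneg : ∀ n, X ≤ n → n ≤ X + H → P k n = -η := by
    intro n h1 h2
    have h3 := hcon n h1 h2
    rcases P_sign k n with h | h
    · rcases hη with h' | h'
      · exact absurd (h.trans h'.symm) h3
      · rw [h, h']; norm_num
    · rcases hη with h' | h'
      · rw [h, h']
      · exact absurd (h.trans h'.symm) h3
  refine no_period (q := k) (X := X) (D := H - 1) hk hX ?_ ?_
  · rw [Nat.cast_sub hH1]
    push_cast
    linarith
  · intro n h1 h2
    have h3 := P_succ k n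
    rw [hneg n h1 (by omega), hneg (n + 1) (by omega) (by omega)] at h3
    have h4 : (-η) ≠ 0 := by rcases hη with h | h <;> rw [h] <;> norm_num
    have h5 : (-η) * lam n = (-η) * lam (n + k) := by rw [h3]; ring
    exact (mul_left_cancel₀ h4 h5).symm

/-- For all `k ≥ 1`, `x`, `H` the contribution `S_k(x + H) - S_k(x)` of the interval `(x, x + H]` is at most
`H - 2 ⌊H / L⌋` in absolute value, where `L = ⌈3 √(k (x + H))⌉ + k + 2`. -/
theorem result (k : ℕ) (hk : 1 ≤ k) (x H : ℕ) :
    |S k (x + H) - S k x| ≤ (H : ℤ) - 2 * (H / (⌈3 * Real.sqrt (k * (x + H : ℕ))⌉₊ + k + 2) : ℕ) := by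
  set L : ℕ := ⌈3 * Real.sqrt (k * (x + H : ℕ))⌉₊ + k + 2 with hL
  -- blocks
  have hblock : ∀ y, x ≤ y → y + L ≤ x + H → |S k (y + L) - S k y| ≤ (L : ℤ) - 2 := by
    intro y hy1 hy2
    have hsum : S k (y + L) - S k y = ∑ n ∈ Icc (y + 1) (y + L), P k n := by
      unfold S
      have h1 : Icc 1 (y + L) = Icc 1 y ∪ Icc (y + 1) (y + L) := by
        ext n
        simp only [mem_union, mem_Icc]
        omega
      rw [h1, sum_union]
      · ring
      · rw [disjoint_left]
        intro n
        simp only [mem_Icc]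
        omega
    have hb : 3 * Real.sqrt (k * (y + 1 : ℕ)) + k + 1 ≤ ((L - 1 : ℕ) : ℝ) := by
      have h1 : Real.sqrt (k * (y + 1 : ℕ)) ≤ Real.sqrt (k * (x + H : ℕ)) := by
        apply Real.sqrt_le_sqrt
        apply mul_le_mul_of_nonneg_left _ (Nat.cast_nonneg k)
        exact_mod_cast (by omega : y + 1 ≤ x + H)
      have h2 : 3 * Real.sqrt (k * (x + H : ℕ)) ≤ (⌈3 * Real.sqrt (k * (x + H : ℕ))⌉₊ : ℝ) := Nat.le_ceil _
      rw [hL, show ⌈3 * Real.sqrt (k * (x + H : ℕ))⌉₊ + k + 2 - 1 = ⌈3 * Real.sqrt (k * (x + H : ℕ))⌉₊ + k + 1 by omega]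
      push_cast at h1 h2 ⊢
      linarith
    have hlen : ∀ η : ℤ, (η = 1 ∨ η = -1) → ∃ n ∈ Icc (y + 1) (y + L), P k n = η := by
      intro η hη
      obtain ⟨n, h1, h2, h3⟩ := both (X := y + 1) hk (by omega) hb η hη
      exact ⟨n, mem_Icc.2 ⟨h1, by omega⟩, h3⟩
    have hcard : (Icc (y + 1) (y + L)).card = L := by simp
    have hup : ∀ s : ℤ, (s = 1 ∨ s = -1) → s * ∑ n ∈ Icc (y + 1) (y + L), P k n ≤ (L : ℤ) - 2 := by
      intro s hs
      obtain ⟨n₀, hn0, hP0⟩ := hlen (-s) (by rcases hs with h | h <;> rw [h] <;> norm_num)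
      rw [mul_sum, ← add_sum_erase _ _ hn0, hP0]
      have h1 : ∑ n ∈ (Icc (y + 1) (y + L)).erase n₀, s * P k n ≤ ∑ n ∈ (Icc (y + 1) (y + L)).erase n₀, (1 : ℤ) := by
        apply sum_le_sum
        intro n _
        rcases P_sign k n with h | h <;> rcases hs with h' | h' <;> rw [h, h'] <;> norm_num
      rw [sum_const, card_erase_of_mem hn0, hcard, nsmul_eq_mul, mul_one] at h1
      have h2 : s * -s = -1 := by rcases hs with h | h <;> rw [h] <;> norm_num
      rw [h2]
      have h3 : 1 ≤ L := by omega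
      push_cast [Nat.cast_sub h3] at h1
      linarith
    rw [hsum, abs_le]
    have h1 := hup 1 (Or.inl rfl)
    have h2 := hup (-1) (Or.inr rfl)
    constructor <;> linarith
  have htriv : ∀ y M, |S k (y + M) - S k y| ≤ (M : ℤ) := by
    intro y M
    have hsum : S k (y + M) - S k y = ∑ n ∈ Icc (y + 1) (y + M), P k n := by
      unfold S
      have h1 : Icc 1 (y + M) = Icc 1 y ∪ Icc (y + 1) (y + M) := by
        ext n
        simp only [mem_union, mem_Icc]
        omega
      rw [h1, sum_union]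
      · ring
      · rw [disjoint_left]
        intro n
        simp only [mem_Icc]
        omega
    rw [hsum]
    refine (abs_sum_le_sum_abs _ _).trans ?_
    have h1 : ∑ n ∈ Icc (y + 1) (y + M), |P k n| ≤ ∑ n ∈ Icc (y + 1) (y + M), (1 : ℤ) := by
      apply sum_le_sum
      intro n _
      rcases P_sign k n with h | h <;> rw [h] <;> norm_num
    refine h1.trans ?_
    rw [sum_const, Nat.card_Icc, nsmul_eq_mul, mul_one]
    push_cast
    omega
  have hind : ∀ b : ℕ, b * L ≤ H → |S k (x + b * L) - S k x| ≤ (b * L : ℤ) - 2 * b := by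
    intro b
    induction b with
    | zero => intro _; simp
    | succ b ih =>
      intro hb
      have e1 : (b + 1) * L = b * L + L := by ring
      have h1 := ih (by omega)
      have h2 := hblock (x + b * L) (by omega) (by omega)
      rw [show x + (b + 1) * L = x + b * L + L by rw [e1]; ring]
      have h3 : S k (x + b * L + L) - S k x = (S k (x + b * L + L) - S k (x + b * L)) + (S k (x + b * L) - S k x) := by
        ring
      rw [h3]
      refine (abs_add_le _ _).trans ?_
      push_cast
      linarith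
  set B : ℕ := H / L with hB
  have hBL : B * L ≤ H := Nat.div_mul_le_self _ _
  have h1 := hind B hBL
  have h2 := htriv (x + B * L) (H - B * L)
  rw [show x + B * L + (H - B * L) = x + H by omega] at h2
  have h3 : S k (x + H) - S k x = (S k (x + H) - S k (x + B * L)) + (S k (x + B * L) - S k x) := by ring
  rw [h3]
  refine (abs_add_le _ _).trans ?_
  rw [Nat.cast_sub hBL] at h2
  push_cast at h2 ⊢
  linarith

end Pool.Agent.Results.MP_a14ce1_nt.EveryShortIntervalH15
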